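import Pool.Agent.X163.CG.Meas

/-!
# Multiplication operators and the cogenerator
-/

set_option autoImplicit false

namespace Pool.Agent.X163.CG

open MeasureTheory Filter Topology Set

variable (μ : Measure unitInterval) [IsProbabilityMeasure μ]

/-- Multiplication operators. -/
noncomputable def M : C(unitInterval, ℂ) →L[ℂ] (Lp ℂ 2 μ →L[ℂ] Lp ℂ 2 μ) :=
  (ContinuousLinearMap.holderL μ ⊤ 2 2 (ContinuousLinearMap.mul ℂ ℂ)) ∘L
    (ContinuousMap.toLp ⊤ μ ℂ)

theorem M_coe (φ : C(unitInterval, ℂ)) (f : Lp ℂ 2 μ) :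
    (M μ φ f : unitInterval → ℂ) =ᵐ[μ] fun x => φ x * f x := by
  have h1 := ContinuousLinearMap.coeFn_holder (r := 2) (ContinuousLinearMap.mul ℂ ℂ)
    (ContinuousMap.toLp ⊤ μ ℂ φ) f
  have h2 := ContinuousMap.coeFn_toLp (p := ⊤) (𝕜 := ℂ) μ φ
  have h3 : (M μ φ f) = ContinuousLinearMap.holder 2 (ContinuousLinearMap.mul ℂ ℂ)
    (ContinuousMap.toLp ⊤ μ ℂ φ) f := rfl
  rw [h3]
  filter_upwards [h1, h2] with x a b
  rw [a, b]
  rfl

theorem M_mul (φ ψ : C(unitInterval, ℂ)) : M μ (φ * ψ) = M μ φ * M μ ψ := by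
  ext1 f
  apply Lp.ext
  have h1 := M_coe μ (φ * ψ) f
  have h2 := M_coe μ φ (M μ ψ f)
  have h3 := M_coe μ ψ f
  filter_upwards [h1, h2, h3] with x a b c
  rw [a]
  change _ = (M μ φ (M μ ψ f)) x
  rw [b, c, ContinuousMap.mul_apply, mul_assoc]

theorem M_one : M μ 1 = 1 := by
  ext1 f
  apply Lp.ext
  filter_upwards [M_coe μ 1 f] with x a
  rw [a]
  simp

theorem M_pow (φ : C(unitInterval, ℂ)) (n : ℕ) : M μ (φ ^ n) = (M μ φ) ^ n := by
  induction n with
  | zero => rw [pow_zero, pow_zero, M_one]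
  | succ n ih => rw [pow_succ, pow_succ, M_mul, ih]

theorem M_norm {φ : C(unitInterval, ℂ)} (hφ : ∀ x, ‖φ x‖ ≤ 1) (f : Lp ℂ 2 μ) : ‖M μ φ f‖ ≤ ‖f‖ := by
  refine Lp.norm_le_norm_of_ae_le ?_
  filter_upwards [M_coe μ φ f] with x a
  rw [a, norm_mul]
  nlinarith [hφ x, norm_nonneg (f x)]

theorem M_inner (φ : C(unitInterval, ℂ)) (f g : Lp ℂ 2 μ) :
    inner ℂ (M μ φ f) g = inner ℂ f (M μ (star φ) g) := by
  rw [L2.inner_def, L2.inner_def]
  apply integral_congr_ae
  filter_upwards [M_coe μ φ f, M_coe μ (star φ) g] with x a b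
  rw [a, b, RCLike.inner_apply, RCLike.inner_apply, ContinuousMap.star_apply, map_mul]
  simp only [RCLike.star_def]
  ring

/-- continuous functions as vectors -/
noncomputable def vec (φ : C(unitInterval, ℂ)) : Lp ℂ 2 μ := ContinuousMap.toLp 2 μ ℂ φ

theorem vec_coe (φ : C(unitInterval, ℂ)) : (vec μ φ : unitInterval → ℂ) =ᵐ[μ] φ :=
  ContinuousMap.coeFn_toLp (p := 2) (𝕜 := ℂ) μ φ

theorem M_vec (φ ψ : C(unitInterval, ℂ)) : M μ φ (vec μ ψ) = vec μ (φ * ψ) := by
  apply Lp.ext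
  filter_upwards [M_coe μ φ (vec μ ψ), vec_coe μ ψ, vec_coe μ (φ * ψ)] with x a b c
  rw [a, b, c, ContinuousMap.mul_apply]

theorem inner_vec (φ ψ : C(unitInterval, ℂ)) :
    inner ℂ (vec μ φ) (vec μ ψ) = ∫ x, (starRingEnd ℂ) (φ x) * ψ x ∂μ := by
  rw [L2.inner_def]
  apply integral_congr_ae
  filter_upwards [vec_coe μ φ, vec_coe μ ψ] with x a b
  rw [a, b, RCLike.inner_apply, mul_comm]

theorem vec_dense : DenseRange (vec μ) :=
  ContinuousMap.toLp_denseRange ℂ μ ℂ (by norm_num)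

/-- weak convergence to zero against a bounded sequence is a closed condition -/
theorem closed_weak {H : Type*} [NormedAddCommGroup H] [InnerProductSpace ℂ H]
    (v : ℕ → H) {C : ℝ} (hv : ∀ n, ‖v n‖ ≤ C) :
    IsClosed {y : H | Tendsto (fun n => inner ℂ (v n) y) atTop (𝓝 (0 : ℂ))} := by
  have hC : 0 ≤ C := (norm_nonneg _).trans (hv 0)
  rw [← closure_subset_iff_isClosed]
  intro y hy
  rw [Set.mem_ofPred_eq, Metric.tendsto_atTop]
  intro ε hε
  obtain ⟨y', hy', hd⟩ := Metric.mem_closure_iff.1 hy (ε / (2 * (C + 1))) (by positivity)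
  rw [Set.mem_ofPred_eq, Metric.tendsto_atTop] at hy'
  obtain ⟨N, hN⟩ := hy' (ε / 2) (by positivity)
  refine ⟨N, fun n hn => ?_⟩
  have h1 := hN n hn
  rw [dist_zero_right] at h1 ⊢
  have h2 : inner ℂ (v n) y = inner ℂ (v n) y' + inner ℂ (v n) (y - y') := by
    rw [inner_sub_right]; ring
  rw [h2]
  have h3 : ‖(inner ℂ (v n) (y - y') : ℂ)‖ ≤ C * (ε / (2 * (C + 1))) := by
    refine (norm_inner_le_norm _ _).trans ?_
    rw [dist_eq_norm] at hd
    exact mul_le_mul (hv n) hd.le (norm_nonneg _) hC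
  have h4 : C * (ε / (2 * (C + 1))) ≤ ε / 2 := by
    rw [mul_div_assoc', div_le_div_iff₀ (by positivity) (by norm_num)]
    nlinarith
  have := norm_add_le (inner ℂ (v n) y') (inner ℂ (v n) (y - y'))
  linarith

/-- Weak stability of the powers of a unimodular multiplication operator. -/
theorem weak_stable (φ : C(unitInterval, ℂ)) (hφ : ∀ x, ‖φ x‖ = 1)
    (h : Tendsto (fun n : ℕ => ∫ x, φ x ^ n ∂μ) atTop (𝓝 0)) (f g : Lp ℂ 2 μ) :
    Tendsto (fun n : ℕ => inner ℂ (M μ (φ ^ n) f) g) atTop (𝓝 0) := by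
  set one : Lp ℂ 2 μ := vec μ 1 with hone
  have hφn : ∀ (n : ℕ) x, ‖(φ ^ n) x‖ ≤ 1 := by
    intro n x
    rw [ContinuousMap.pow_apply, norm_pow, hφ, one_pow]
  have hvn : ∀ n, M μ (φ ^ n) one = vec μ (φ ^ n) := by
    intro n; rw [hone, M_vec, mul_one]
  have hvb : ∀ n, ‖vec μ (φ ^ n)‖ ≤ ‖one‖ := by
    intro n; rw [← hvn]; exact M_norm μ (hφn n) _
  -- step 1
  have s1 : ∀ m : ℕ, Tendsto (fun n : ℕ => inner ℂ (vec μ (φ ^ n)) (vec μ (φ ^ m))) atTop (𝓝 0) := by
    intro m
    have h1 : Tendsto (fun n : ℕ => (starRingEnd ℂ) (∫ x, φ x ^ (n - m) ∂μ)) atTop (𝓝 0) := by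
      have := ((Complex.continuous_conj.tendsto 0).comp (h.comp (tendsto_sub_atTop_nat m)))
      rw [map_zero] at this
      exact this
    refine h1.congr' ?_
    filter_upwards [eventually_ge_atTop m] with n hn
    rw [inner_vec, ← integral_conj]
    congr 1
    funext x
    obtain ⟨k, rfl⟩ := Nat.exists_eq_add_of_le hn
    rw [ContinuousMap.pow_apply, ContinuousMap.pow_apply, Nat.add_sub_cancel_left, pow_add, map_mul]
    have h2 : (starRingEnd ℂ) (φ x ^ m) * φ x ^ m = 1 := by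
      rw [Complex.conj_mul', norm_pow, hφ]; simp
    linear_combination -(starRingEnd ℂ) (φ x ^ k) * h2
  -- step 2
  have s2 : ∀ y : Lp ℂ 2 μ, Tendsto (fun n : ℕ => inner ℂ (vec μ (φ ^ n)) y) atTop (𝓝 0) := by
    set Z : Submodule ℂ (Lp ℂ 2 μ) :=
      (Submodule.span ℂ (Set.range fun m : ℕ => vec μ (φ ^ m))).topologicalClosure with hZ
    have hZc : IsClosed (Z : Set (Lp ℂ 2 μ)) := Submodule.isClosed_topologicalClosure _
    have hcomp : CompleteSpace Z := hZc.completeSpace_coe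
    have hin : ∀ m, vec μ (φ ^ m) ∈ Z := fun m =>
      Submodule.le_topologicalClosure _ (Submodule.subset_span ⟨m, rfl⟩)
    have hsub : (Z : Set (Lp ℂ 2 μ)) ⊆
        {y | Tendsto (fun n => inner ℂ (vec μ (φ ^ n)) y) atTop (𝓝 (0 : ℂ))} := by
      rw [hZ, Submodule.topologicalClosure_coe]
      refine closure_minimal ?_ (closed_weak _ hvb)
      intro y hy
      induction hy using Submodule.span_induction with
      | mem y hy => obtain ⟨m, rfl⟩ := hy; exact s1 m
      | zero => simp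
      | add a b _ _ ha hb =>
        simp only [Set.mem_ofPred_eq, inner_add_right] at *
        simpa using ha.add hb
      | smul c a _ ha =>
        simp only [Set.mem_ofPred_eq, inner_smul_right] at *
        simpa using ha.const_mul c
    intro y
    have hdec : y = Z.starProjection y + (y - Z.starProjection y) := by abel
    have h1 : Tendsto (fun n : ℕ => inner ℂ (vec μ (φ ^ n)) (Z.starProjection y)) atTop (𝓝 0) :=
      hsub (Submodule.starProjection_apply_mem Z y)
    have h2 : ∀ n, inner ℂ (vec μ (φ ^ n)) (y - Z.starProjection y) = 0 := by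
      intro n
      have := Submodule.sub_starProjection_mem_orthogonal (K := Z) y
      exact (Submodule.mem_orthogonal _ _).1 this _ (hin n)
    refine h1.congr fun n => ?_
    conv_rhs => rw [hdec]
    rw [inner_add_right, h2, add_zero]
  -- step 3 and 4
  have s4 : f ∈ {y : Lp ℂ 2 μ | Tendsto (fun n => inner ℂ (M μ (star (φ ^ n)) g) y) atTop
      (𝓝 (0 : ℂ))} := by
    have hb : ∀ n, ‖M μ (star (φ ^ n)) g‖ ≤ ‖g‖ := by
      intro n
      refine M_norm μ (fun x => ?_) g
      rw [ContinuousMap.star_apply, norm_star]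
      exact hφn n x
    have hcl := closed_weak (fun n => M μ (star (φ ^ n)) g) hb
    have hd := vec_dense μ
    refine hd.induction_on (p := fun y => y ∈ {y : Lp ℂ 2 μ | Tendsto (fun n => inner ℂ (M μ (star (φ ^ n)) g) y) atTop
      (𝓝 (0 : ℂ))}) f hcl ?_
    intro ψ
    rw [Set.mem_ofPred_eq]
    have h1 := ((Complex.continuous_conj.tendsto 0).comp (s2 (M μ (star ψ) g)))
    rw [map_zero] at h1
    refine h1.congr fun n => ?_
    simp only [Function.comp_apply]
    rw [inner_conj_symm, M_inner, M_inner, star_star, star_star, M_vec, M_vec, mul_comm]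
  rw [Set.mem_ofPred_eq] at s4
  have h5 := ((Complex.continuous_conj.tendsto 0).comp s4)
  rw [map_zero] at h5
  refine h5.congr fun n => ?_
  simp only [Function.comp_apply]
  rw [inner_conj_symm, M_inner]

/-! ### The semigroup -/

/-- The function `x ↦ e^{itx}`. -/
noncomputable def E (t : ℝ) : C(unitInterval, ℂ) :=
  ⟨fun x => ph 0 t x, (continuous_ph 0 t).comp continuous_subtype_val⟩

theorem E_apply (t : ℝ) (x : unitInterval) : E t x = Complex.exp ((t * x : ℝ) * Complex.I) := by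
  simp [E, ph]

theorem E_norm (t : ℝ) (x : unitInterval) : ‖E t x‖ = 1 := norm_ph 0 t x

theorem E_zero : E 0 = 1 := by
  ext x; simp [E_apply]

theorem E_add (s t : ℝ) : E (s + t) = E s * E t := by
  ext x
  rw [ContinuousMap.mul_apply, E_apply, E_apply, E_apply, ← Complex.exp_add]
  congr 1
  push_cast
  ring

theorem E_continuous : Continuous E := by
  refine ContinuousMap.continuous_of_continuous_uncurry _ ?_
  have : (Function.uncurry fun (t : ℝ) (x : unitInterval) => E t x) =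
      fun p : ℝ × unitInterval => Complex.exp ((p.1 * p.2 : ℝ) * Complex.I) := by
    funext p
    exact E_apply _ _
  rw [this]
  fun_prop

/-- The semigroup. -/
noncomputable def TT (t : ℝ) : Lp ℂ 2 μ →L[ℂ] Lp ℂ 2 μ := M μ (E t)

/-- The symbol of the cogenerator. -/
noncomputable def phi : C(unitInterval, ℂ) :=
  ⟨fun x => - ph 1 0 x, ((continuous_ph 1 0).comp continuous_subtype_val).neg⟩

theorem ph_one (x : ℝ) : ph 1 0 x = (1 + x * Complex.I) / (1 - x * Complex.I) := by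
  have h0 : (0 : ℝ) < 1 + x ^ 2 := by positivity
  have hs : (0 : ℝ) < √(1 + x ^ 2) := Real.sqrt_pos.2 h0
  have h1 : Complex.exp ((Real.arctan x : ℝ) * Complex.I) = (1 + x * Complex.I) / (√(1 + x ^ 2) : ℝ) := by
    rw [Complex.exp_mul_I, ← Complex.ofReal_cos, ← Complex.ofReal_sin, Real.cos_arctan,
      Real.sin_arctan]
    push_cast
    ring
  have h2 : ph 1 0 x = Complex.exp ((Real.arctan x : ℝ) * Complex.I) ^ 2 := by
    unfold ph
    rw [← Complex.exp_nat_mul]
    congr 1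
    push_cast
    ring
  have h3 : (1 - x * Complex.I : ℂ) ≠ 0 := by
    intro h
    have := congrArg Complex.re h
    simp at this
  have h4 : (((√(1 + x ^ 2) : ℝ) : ℂ)) ^ 2 = (1 + x * Complex.I) * (1 - x * Complex.I) := by
    rw [← Complex.ofReal_pow, Real.sq_sqrt h0.le]
    push_cast
    ring_nf
    rw [Complex.I_sq]
    ring
  have h5 : (((√(1 + x ^ 2) : ℝ) : ℂ)) ≠ 0 := by exact_mod_cast hs.ne'
  rw [h2, h1, div_pow, h4]
  have h6 : (1 + x * Complex.I : ℂ) ≠ 0 := by
    intro h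
    have := congrArg Complex.re h
    simp at this
  field_simp

theorem E_integrable : IntegrableOn (fun t : ℝ => ((Real.exp (-t) : ℝ) : ℂ) • E t) (Ioi 0) := by
  have hc : Continuous fun t : ℝ => ((Real.exp (-t) : ℝ) : ℂ) • E t := by
    have : Continuous fun t : ℝ => ((Real.exp (-t) : ℝ) : ℂ) := by fun_prop
    exact this.smul E_continuous
  refine Integrable.mono' (integrableOn_exp_neg_Ioi 0) hc.aestronglyMeasurable ?_
  refine Eventually.of_forall fun t => ?_
  rw [norm_smul, Complex.norm_real, Real.norm_of_nonneg (Real.exp_pos _).le]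
  have : ‖E t‖ ≤ 1 := (ContinuousMap.norm_le _ zero_le_one).2 fun x => (E_norm t x).le
  nlinarith [Real.exp_pos (-t)]

theorem E_integral : 1 - (2 : ℂ) • ∫ t in Ioi (0 : ℝ), ((Real.exp (-t) : ℝ) : ℂ) • E t = phi := by
  ext x
  have h1 := (ContinuousMap.evalCLM ℂ (M := ℂ) x).integral_comp_comm E_integrable
  have h2 : (∫ t in Ioi (0 : ℝ), ((Real.exp (-t) : ℝ) : ℂ) • E t) x =
      ∫ t in Ioi (0 : ℝ), Complex.exp ((-1 + (x : ℝ) * Complex.I) * (t : ℝ)) := by
    refine h1.symm.trans ?_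
    congr 1
    funext t
    change (((Real.exp (-t) : ℝ) : ℂ) • E t) x = _
    rw [ContinuousMap.smul_apply, E_apply, smul_eq_mul, Complex.ofReal_exp, ← Complex.exp_add]
    congr 1
    push_cast
    ring
  rw [ContinuousMap.sub_apply, ContinuousMap.smul_apply, h2,
    integral_exp_mul_complex_Ioi (by simp)]
  change (1 : ℂ) - _ = - ph 1 0 x
  rw [ph_one]
  have h3 : (1 - (x : ℝ) * Complex.I : ℂ) ≠ 0 := by
    intro h
    have := congrArg Complex.re h
    simp at this
  have h4 : (-1 + (x : ℝ) * Complex.I : ℂ) ≠ 0 := by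
    intro h
    have := congrArg Complex.re h
    simp at this
  simp only [Complex.ofReal_zero, mul_zero, Complex.exp_zero, smul_eq_mul]
  field_simp
  ring

theorem cogen (z : Lp ℂ 2 μ) :
    z - (2 : ℂ) • ∫ t in Ioi (0 : ℝ), ((Real.exp (-t) : ℝ) : ℂ) • TT μ t z = M μ phi z := by
  set L : C(unitInterval, ℂ) →L[ℂ] Lp ℂ 2 μ := (ContinuousLinearMap.apply ℂ (Lp ℂ 2 μ) z) ∘L (M μ)
    with hL
  have h1 := L.integral_comp_comm E_integrable
  have h2 : ∀ t : ℝ, L (((Real.exp (-t) : ℝ) : ℂ) • E t) = ((Real.exp (-t) : ℝ) : ℂ) • TT μ t z := by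
    intro t
    rw [map_smul]
    rfl
  simp only [h2] at h1
  rw [h1, ← E_integral, map_sub, map_smul, M_one]
  rfl

theorem cogen_iter (n : ℕ) (z : Lp ℂ 2 μ) :
    (fun z : Lp ℂ 2 μ => z - (2 : ℂ) • ∫ t in Ioi (0 : ℝ), ((Real.exp (-t) : ℝ) : ℂ) • TT μ t z)^[n] z
      = M μ (phi ^ n) z := by
  have : (fun z : Lp ℂ 2 μ => z - (2 : ℂ) •
      ∫ t in Ioi (0 : ℝ), ((Real.exp (-t) : ℝ) : ℂ) • TT μ t z) = fun z => M μ phi z :=
    funext fun z => cogen μ z
  rw [this]
  induction n generalizing z with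
  | zero => rw [pow_zero, M_one]; rfl
  | succ n ih =>
    rw [Function.iterate_succ_apply, ih, pow_succ, M_mul]
    rfl

theorem phi_pow (n : ℕ) (x : unitInterval) : phi x ^ n = (-1) ^ n * ph n 0 x := by
  have : phi x = (-1) * ph 1 0 x := by
    change - ph 1 0 x = _
    ring
  rw [this, mul_pow]
  congr 1
  unfold ph
  rw [← Complex.exp_nat_mul]
  congr 1
  push_cast
  ring

end Pool.Agent.X163.CG
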