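import Pool.Agent.X163.CG.Seq

/-!
# The measure
-/

set_option autoImplicit false

namespace Pool.Agent.X163.CG

open MeasureTheory Filter Topology Set

/-- The total mass of the Riesz product. -/
noncomputable def cc (l : List ℕ) : ℝ := ∫ x in Ioo (0 : ℝ) 1, pl l x

theorem A_zero (l : List ℕ) : A (pl l) 0 0 = (cc l : ℂ) := by
  unfold A cc
  rw [← integral_complex_ofReal]
  congr 1
  funext x
  simp [ph]

/-- The normalised Riesz products, as measures on the unit interval. -/
noncomputable def Pm (l : List ℕ) : Measure unitInterval :=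
  (volume : Measure unitInterval).withDensity fun x => ENNReal.ofReal (pl l x / cc l)

theorem Pm_integral (l : List ℕ) (hc : 0 < cc l) (F : ℝ → ℂ) :
    ∫ x : unitInterval, F x ∂Pm l = (∫ x in Ioo (0 : ℝ) 1, F x * (pl l x : ℂ)) / (cc l : ℂ) := by
  have hm : Measurable fun x : unitInterval => ENNReal.ofReal (pl l x / cc l) :=
    (((pl_continuous l).comp continuous_subtype_val).div_const _).measurable.ennreal_ofReal
  have h1 := integral_withDensity_eq_integral_toReal_smul (μ := (volume : Measure unitInterval)) hm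
    (Eventually.of_forall fun x => ENNReal.ofReal_lt_top) (fun x : unitInterval => F x)
  have h2 : ∀ x : unitInterval, (ENNReal.ofReal (pl l x / cc l)).toReal • F x =
      (fun y : ℝ => F y * (pl l y : ℂ) / (cc l : ℂ)) x := by
    intro x
    rw [ENNReal.toReal_ofReal (div_nonneg (pl_nonneg l x) hc.le), Complex.real_smul]
    push_cast
    ring
  unfold Pm
  rw [h1]
  simp only [h2]
  have h3 := integral_subtype (α := ℝ) (s := Icc (0 : ℝ) 1) measurableSet_Icc
    (fun y : ℝ => F y * (pl l y : ℂ) / (cc l : ℂ))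
  refine h3.trans ?_
  rw [integral_Icc_eq_integral_Ioo, integral_div]

theorem Pm_prob (l : List ℕ) (hc : 0 < cc l) : IsProbabilityMeasure (Pm l) := by
  constructor
  have hcont : Continuous fun x : unitInterval => pl l x / cc l :=
    ((pl_continuous l).comp continuous_subtype_val).div_const _
  have hint : Integrable (fun x : unitInterval => pl l x / cc l) := by
    have := hcont.integrable_of_hasCompactSupport (μ := (volume : Measure unitInterval))
      (HasCompactSupport.of_compactSpace _)
    exact this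
  unfold Pm
  rw [withDensity_apply _ MeasurableSet.univ, Measure.restrict_univ,
    ← ofReal_integral_eq_lintegral_ofReal hint
      (Eventually.of_forall fun x => div_nonneg (pl_nonneg l x) hc.le)]
  have h3 := integral_subtype (α := ℝ) (s := Icc (0 : ℝ) 1) measurableSet_Icc
    (fun y : ℝ => pl l y / cc l)
  have h4 : ∫ x : unitInterval, pl l x / cc l = 1 := by
    refine h3.trans ?_
    rw [integral_Icc_eq_integral_Ioo, integral_div]
    exact div_self hc.ne'
  rw [h4, ENNReal.ofReal_one]

theorem exists_measure : ∃ (μ : Measure unitInterval), IsProbabilityMeasure μ ∧ ∃ f : ℕ → ℕ,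
    (∀ k, k + 1 ≤ f k) ∧ (∀ i, 2 / 9 ≤ ‖∫ x : unitInterval, ph 0 (f i) x ∂μ‖) ∧
    Tendsto (fun n : ℕ => ∫ x : unitInterval, ph n 0 x ∂μ) atTop (𝓝 0) := by
  obtain ⟨f, hf1, hf2, hf3, hf4⟩ := construction
  have hcc : ∀ k, |cc (gl f k) - 1| ≤ 1 / 8 := by
    intro k
    have := hf2 k
    rw [A_zero] at this
    rw [← Real.norm_eq_abs, ← Complex.norm_real]
    push_cast
    exact this
  have hc1 : ∀ k, 7 / 8 ≤ cc (gl f k) := fun k => by
    have := (abs_le.1 (hcc k)).1; linarith
  have hc2 : ∀ k, cc (gl f k) ≤ 9 / 8 := fun k => by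
    have := (abs_le.1 (hcc k)).2; linarith
  have hc0 : ∀ k, 0 < cc (gl f k) := fun k => by linarith [hc1 k]
  let P : ℕ → ProbabilityMeasure unitInterval := fun k => ⟨Pm (gl f k), Pm_prob _ (hc0 k)⟩
  set U : Ultrafilter ℕ := hyperfilter ℕ with hU
  set μ : ProbabilityMeasure unitInterval := (U.map P).lim with hμ
  have hlim : Tendsto P U (𝓝 μ) := (U.map P).le_nhds_lim
  rw [ProbabilityMeasure.tendsto_iff_forall_integral_tendsto] at hlim
  have hint : ∀ (ν : Measure unitInterval) [IsProbabilityMeasure ν] (F : C(unitInterval, ℂ)),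
      Integrable F ν := fun ν _ F =>
    F.continuous.integrable_of_hasCompactSupport (HasCompactSupport.of_compactSpace _)
  have hlimc : ∀ F : C(unitInterval, ℂ), Tendsto (fun k => ∫ x, F x ∂(Pm (gl f k))) U
      (𝓝 (∫ x, F x ∂(μ : Measure unitInterval))) := by
    intro F
    have hre := hlim (BoundedContinuousFunction.mkOfCompact
      ⟨fun x => (F x).re, Complex.continuous_re.comp F.continuous⟩)
    have him := hlim (BoundedContinuousFunction.mkOfCompact
      ⟨fun x => (F x).im, Complex.continuous_im.comp F.continuous⟩)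
    simp only [BoundedContinuousFunction.mkOfCompact_apply, ContinuousMap.coe_mk] at hre him
    have e : ∀ (ν : Measure unitInterval) [IsProbabilityMeasure ν], ∫ x, F x ∂ν =
        ((∫ x, (F x).re ∂ν : ℝ) : ℂ) + ((∫ x, (F x).im ∂ν : ℝ) : ℂ) * Complex.I := by
      intro ν _
      exact (integral_re_add_im (hint ν F)).symm
    rw [e]
    have e2 : ∀ k, ∫ x, F x ∂(Pm (gl f k)) = ((∫ x, (F x).re ∂(Pm (gl f k)) : ℝ) : ℂ) +
        ((∫ x, (F x).im ∂(Pm (gl f k)) : ℝ) : ℂ) * Complex.I := by
      intro k
      have := Pm_prob _ (hc0 k)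
      exact e _
    simp only [e2]
    exact ((Complex.continuous_ofReal.tendsto _).comp hre).add
      (((Complex.continuous_ofReal.tendsto _).comp him).mul_const _)
  have hlimp : ∀ n c : ℝ, Tendsto (fun k => ‖A (pl (gl f k)) n c / (cc (gl f k) : ℂ)‖) U
      (𝓝 ‖∫ x : unitInterval, ph n c x ∂(μ : Measure unitInterval)‖) := by
    intro n c
    have := hlimc ⟨fun x => ph n c x, (continuous_ph n c).comp continuous_subtype_val⟩
    simp only [ContinuousMap.coe_mk] at this
    have e : ∀ k, ∫ x : unitInterval, ph n c x ∂(Pm (gl f k)) =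
        A (pl (gl f k)) n c / (cc (gl f k) : ℂ) := fun k => Pm_integral _ (hc0 k) _
    simp only [e] at this
    exact this.norm
  have hUle : (U : Filter ℕ) ≤ atTop := by
    rw [hU, ← Nat.cofinite_eq_atTop]; exact hyperfilter_le_cofinite
  have hnorm : ∀ (n c : ℝ) k, ‖A (pl (gl f k)) n c / (cc (gl f k) : ℂ)‖ =
      ‖A (pl (gl f k)) n c‖ / cc (gl f k) := by
    intro n c k
    rw [norm_div, Complex.norm_real, Real.norm_of_nonneg (hc0 k).le]
  refine ⟨μ, inferInstance, f, hf1, ?_, ?_⟩
  · intro i
    refine ge_of_tendsto (hlimp 0 (f i)) ?_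
    have : ∀ᶠ k in atTop, i < k := eventually_gt_atTop i
    filter_upwards [hUle this] with k hk
    rw [hnorm, le_div_iff₀ (hc0 k)]
    have := hf3 i k hk
    have := hc2 k
    linarith
  · rw [tendsto_zero_iff_norm_tendsto_zero, Metric.tendsto_atTop]
    intro ε hε
    obtain ⟨n0, hn0⟩ := hf4 (ε / 4) (by positivity)
    refine ⟨n0, fun n hn => ?_⟩
    obtain ⟨K, hK⟩ := hn0 n hn
    rw [dist_zero_right, norm_norm]
    refine lt_of_le_of_lt (le_of_tendsto (hlimp n 0) ?_) (show ε / 2 < ε by linarith)
    filter_upwards [hUle (eventually_ge_atTop K)] with k hk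
    rw [hnorm, div_le_iff₀ (hc0 k)]
    have := hK k hk
    have := hc1 k
    nlinarith

end Pool.Agent.X163.CG
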