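import Pool.Agent.X163.CG.Vdc

/-!
# The frequencies of the Riesz product
-/

set_option autoImplicit false

namespace Pool.Agent.X163.CG

open MeasureTheory Filter Topology Set

/-- The Riesz product. -/
noncomputable def pl (l : List ℕ) (x : ℝ) : ℝ := (l.map fun N : ℕ => 1 + Real.cos (N * x)).prod

theorem pl_nil (x : ℝ) : pl [] x = 1 := rfl

theorem pl_append (l : List ℕ) (N : ℕ) (x : ℝ) : pl (l ++ [N]) x = pl l x * (1 + Real.cos (N * x)) := by
  simp [pl]

theorem pl_continuous (l : List ℕ) : Continuous (pl l) := by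
  induction l using List.reverseRecOn with
  | nil => exact continuous_const
  | append_singleton l N ih =>
    have : pl (l ++ [N]) = fun x => pl l x * (1 + Real.cos (N * x)) := funext fun x => pl_append l N x
    rw [this]
    fun_prop

theorem pl_nonneg (l : List ℕ) (x : ℝ) : 0 ≤ pl l x := by
  induction l using List.reverseRecOn with
  | nil => simp [pl_nil]
  | append_singleton l N ih =>
    rw [pl_append]
    have := Real.neg_one_le_cos (N * x)
    exact mul_nonneg ih (by linarith)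

theorem int_ph (p : ℝ → ℝ) (hp : Continuous p) (n c : ℝ) :
    IntegrableOn (fun x => ph n c x * (p x : ℂ)) (Ioo (0 : ℝ) 1) := by
  have hcont : Continuous fun x => ph n c x * (p x : ℂ) := (continuous_ph n c).mul
    (Complex.continuous_ofReal.comp hp)
  exact (hcont.integrableOn_Icc (a := 0) (b := 1)).mono_set Ioo_subset_Icc_self

theorem A_append (l : List ℕ) (N : ℕ) (n c : ℝ) :
    A (pl (l ++ [N])) n c = A (pl l) n c + (A (pl l) n (c + N) + A (pl l) n (c - N)) / 2 := by
  have h1 := int_ph (pl l) (pl_continuous l) n c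
  have h2 := int_ph (pl l) (pl_continuous l) n (c + N)
  have h3 := int_ph (pl l) (pl_continuous l) n (c - N)
  have e : ∀ x, ph n c x * (pl (l ++ [N]) x : ℂ) = ph n c x * (pl l x : ℂ) +
      (ph n (c + N) x * (pl l x : ℂ) + ph n (c - N) x * (pl l x : ℂ)) / 2 := by
    intro x
    have e1 : ph n (c + N) x = ph n c x * Complex.exp ((N * x : ℝ) * Complex.I) := by
      unfold ph
      rw [← Complex.exp_add]
      congr 1
      push_cast
      ring
    have e2 : ph n (c - N) x = ph n c x * Complex.exp (-(N * x : ℝ) * Complex.I) := by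
      unfold ph
      rw [← Complex.exp_add]
      congr 1
      push_cast
      ring
    have e3 : ((Real.cos (N * x) : ℝ) : ℂ) = (Complex.exp ((N * x : ℝ) * Complex.I) +
        Complex.exp (-(N * x : ℝ) * Complex.I)) / 2 := by
      rw [Complex.ofReal_cos, Complex.cos]
    rw [pl_append, e1, e2, Complex.ofReal_mul, Complex.ofReal_add, e3]
    push_cast
    ring
  have h23 : IntegrableOn (fun x => (ph n (c + N) x * (pl l x : ℂ) +
      ph n (c - N) x * (pl l x : ℂ)) / 2) (Ioo (0 : ℝ) 1) := (h2.add h3).div_const 2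
  unfold A
  simp only [e]
  rw [integral_add h1 h23, integral_div, integral_add h2 h3]

theorem rl_add (p : ℝ → ℝ) (n c : ℝ) :
    Tendsto (fun w : ℝ => A p n (c + w)) atTop (𝓝 0) ∧
    Tendsto (fun w : ℝ => A p n (c - w)) atTop (𝓝 0) := by
  set G : ℝ → ℂ := (Ioo (0 : ℝ) 1).indicator fun x => ph n c x * (p x : ℂ) with hG
  have key : ∀ w : ℝ, A p n (c + w) =
      ∫ v : ℝ, Real.fourierChar (-(v * (-(w / (2 * Real.pi))))) • G v := by
    intro w
    unfold A
    rw [← integral_indicator measurableSet_Ioo]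
    congr 1
    funext v
    by_cases hv : v ∈ Ioo (0 : ℝ) 1
    · rw [hG, indicator_of_mem hv, indicator_of_mem hv, Circle.smul_def, Real.fourierChar_apply,
        smul_eq_mul, ← mul_assoc]
      congr 1
      unfold ph
      rw [← Complex.exp_add]
      congr 1
      have : (Real.pi : ℂ) ≠ 0 := by exact_mod_cast Real.pi_ne_zero
      push_cast
      field_simp
      ring
    · rw [hG, indicator_of_notMem hv, indicator_of_notMem hv, smul_zero]
  have h3 : Tendsto (fun w : ℝ => -(w / (2 * Real.pi))) atTop atBot :=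
    tendsto_neg_atTop_atBot.comp (tendsto_id.atTop_div_const (by positivity))
  have h4 : Tendsto (fun w : ℝ => w / (2 * Real.pi)) atTop atTop :=
    tendsto_id.atTop_div_const (by positivity)
  constructor
  · simp only [key]
    exact (Real.tendsto_integral_exp_smul_cocompact G).comp (h3.mono_right atBot_le_cocompact)
  · have key2 : ∀ w : ℝ, A p n (c - w) =
      ∫ v : ℝ, Real.fourierChar (-(v * (w / (2 * Real.pi)))) • G v := by
      intro w
      rw [sub_eq_add_neg, key]
      congr 1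
      funext v
      congr 3
      ring
    simp only [key2]
    exact (Real.tendsto_integral_exp_smul_cocompact G).comp (h4.mono_right atTop_le_cocompact)

/-- the accuracies -/
noncomputable def ep (k : ℕ) : ℝ := (1 / 2) ^ (k + 4)

theorem ep_pos (k : ℕ) : 0 < ep k := by unfold ep; positivity

/-- the threshold after which all integrals against `pl l` are small -/
noncomputable def th (l : List ℕ) : ℕ :=
  (vdc (pl l) (pl_continuous l) (ε := (1 / 2) ^ l.length) (by positivity)).choose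

theorem th_spec (l : List ℕ) (n : ℕ) (hn : th l ≤ n) (c : ℝ) : ‖A (pl l) n c‖ ≤ (1 / 2) ^ l.length :=
  (vdc (pl l) (pl_continuous l) (ε := (1 / 2) ^ l.length) (by positivity)).choose_spec n hn c

/-- sums of thresholds of prefixes -/
noncomputable def Ms (l : List ℕ) : ℕ := ∑ j ∈ Finset.range (l.length + 1), (th (l.take j) + 1)

/-- The next frequency is good. -/
def Good (l : List ℕ) (N : ℕ) : Prop :=
  l.length + 1 ≤ N ∧
  (∀ n : ℕ, n ≤ Ms l → ‖A (pl l) n (0 + N)‖ ≤ ep l.length ∧ ‖A (pl l) n (0 - N)‖ ≤ ep l.length) ∧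
  (∀ c ∈ l, ‖A (pl l) 0 ((c : ℕ) + (N : ℝ))‖ ≤ ep l.length ∧
    ‖A (pl l) 0 ((c : ℕ) - (N : ℝ))‖ ≤ ep l.length) ∧
  ‖A (pl l) 0 (0 + N)‖ ≤ ep l.length ∧ ‖A (pl l) 0 (0 + 2 * N)‖ ≤ ep l.length

theorem exists_good (l : List ℕ) : ∃ N, Good l N := by
  have hε := ep_pos l.length
  have key : ∀ n c : ℝ, ∀ᶠ N : ℕ in atTop, ‖A (pl l) n (c + N)‖ ≤ ep l.length ∧
      ‖A (pl l) n (c - N)‖ ≤ ep l.length := by
    intro n c
    have h1 := (((rl_add (pl l) n c).1.comp tendsto_natCast_atTop_atTop).norm)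
    have h2 := (((rl_add (pl l) n c).2.comp tendsto_natCast_atTop_atTop).norm)
    rw [norm_zero] at h1 h2
    filter_upwards [h1.eventually (gt_mem_nhds hε), h2.eventually (gt_mem_nhds hε)] with N a b
    exact ⟨a.le, b.le⟩
  have k1 : ∀ᶠ N : ℕ in atTop, ∀ n ∈ Finset.range (Ms l + 1),
      ‖A (pl l) n (0 + N)‖ ≤ ep l.length ∧ ‖A (pl l) n (0 - N)‖ ≤ ep l.length := by
    rw [Filter.eventually_all_finset]
    intro n _
    exact key n 0
  have k2 : ∀ᶠ N : ℕ in atTop, ∀ c ∈ l.toFinset,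
      ‖A (pl l) 0 ((c : ℕ) + (N : ℝ))‖ ≤ ep l.length ∧
      ‖A (pl l) 0 ((c : ℕ) - (N : ℝ))‖ ≤ ep l.length := by
    rw [Filter.eventually_all_finset]
    intro c _
    exact key 0 c
  have k3 : ∀ᶠ N : ℕ in atTop, ‖A (pl l) 0 (0 + 2 * N)‖ ≤ ep l.length := by
    have h1 := (((rl_add (pl l) 0 0).1.comp
      ((tendsto_natCast_atTop_atTop (R := ℝ)).const_mul_atTop (show (0 : ℝ) < 2 by norm_num))).norm)
    rw [norm_zero] at h1
    filter_upwards [h1.eventually (gt_mem_nhds hε)] with N a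
    exact a.le
  obtain ⟨N, h0, h1, h2, h3, h4⟩ := ((eventually_ge_atTop (l.length + 1)).and
    (k1.and (k2.and ((key 0 0).and k3)))).exists
  exact ⟨N, h0, fun n hn => h1 n (Finset.mem_range.2 (by omega)),
    fun c hc => h2 c (List.mem_toFinset.2 hc), h3.1, h4⟩

theorem exists_seq {Q : List ℕ → ℕ → Prop} (h : ∀ l, ∃ N, Q l N) :
    ∃ f : ℕ → ℕ, ∀ k, Q ((List.range k).map f) (f k) := by
  choose F hF using h
  let g : ℕ → List ℕ := fun k => Nat.rec [] (fun _ l => l ++ [F l]) k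
  have hg : ∀ k, g (k + 1) = g k ++ [F (g k)] := fun k => rfl
  refine ⟨fun k => F (g k), fun k => ?_⟩
  have : (List.range k).map (fun k => F (g k)) = g k := by
    induction k with
    | zero => rfl
    | succ k ih => rw [List.range_succ, List.map_append, ih, hg]; rfl
  rw [this]
  exact hF _

/-- prefixes of the sequence -/
def gl (f : ℕ → ℕ) (k : ℕ) : List ℕ := (List.range k).map f

theorem gl_succ (f : ℕ → ℕ) (k : ℕ) : gl f (k + 1) = gl f k ++ [f k] := by
  simp [gl, List.range_succ]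

theorem gl_length (f : ℕ → ℕ) (k : ℕ) : (gl f k).length = k := by simp [gl]

theorem gl_take (f : ℕ → ℕ) {j k : ℕ} (h : j ≤ k) : (gl f k).take j = gl f j := by
  simp [gl, ← List.map_take, List.take_range, min_eq_left h]

theorem Ms_gl (f : ℕ → ℕ) (k : ℕ) : Ms (gl f k) = ∑ j ∈ Finset.range (k + 1), (th (gl f j) + 1) := by
  unfold Ms
  rw [gl_length]
  refine Finset.sum_congr rfl fun j hj => ?_
  rw [gl_take f (by have := Finset.mem_range.1 hj; omega)]

theorem Ms_ge (f : ℕ → ℕ) (k : ℕ) : k + 1 ≤ Ms (gl f k) := by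
  rw [Ms_gl]
  calc k + 1 = ∑ j ∈ Finset.range (k + 1), 1 := by simp
    _ ≤ _ := Finset.sum_le_sum fun j _ => by omega

theorem th_le_Ms (f : ℕ → ℕ) (k : ℕ) : th (gl f k) ≤ Ms (gl f k) := by
  rw [Ms_gl]
  have := Finset.single_le_sum (f := fun j => th (gl f j) + 1) (fun _ _ => Nat.zero_le _)
    (Finset.self_mem_range_succ k)
  omega

theorem Ms_mono (f : ℕ → ℕ) : Monotone fun k => Ms (gl f k) := by
  refine monotone_nat_of_le_succ fun k => ?_
  simp only [Ms_gl]
  rw [Finset.sum_range_succ _ (k + 1)]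
  omega

theorem tele (u : ℕ → ℂ) (k0 : ℕ) (h : ∀ j, k0 ≤ j → ‖u (j + 1) - u j‖ ≤ ep j) (k : ℕ) (hk : k0 ≤ k) :
    ‖u k - u k0‖ ≤ 2 * ep k0 := by
  have : ‖u k - u k0‖ ≤ 2 * ep k0 - 2 * ep k := by
    induction k, hk using Nat.le_induction with
    | base => simp
    | succ k hk ih =>
      have h1 := h k hk
      have h2 : ‖u (k + 1) - u k0‖ ≤ ‖u (k + 1) - u k‖ + ‖u k - u k0‖ := by
        have := norm_add_le (u (k + 1) - u k) (u k - u k0)
        simpa using this
      have h3 : 2 * ep (k + 1) = ep k := by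
        unfold ep
        rw [show k + 1 + 4 = (k + 4) + 1 by ring, pow_succ]
        ring
      linarith
  have := ep_pos k
  linarith

/-- The summary of the construction. -/
theorem construction : ∃ f : ℕ → ℕ, (∀ k, k + 1 ≤ f k) ∧
    (∀ k, ‖A (pl (gl f k)) 0 0 - 1‖ ≤ 1 / 8) ∧
    (∀ i k, i < k → 1 / 4 ≤ ‖A (pl (gl f k)) 0 (f i)‖) ∧
    (∀ ε : ℝ, 0 < ε → ∃ n0 : ℕ, ∀ n : ℕ, n0 ≤ n → ∃ K : ℕ, ∀ k, K ≤ k →
      ‖A (pl (gl f k)) n 0‖ ≤ ε) := by
  obtain ⟨f, hf⟩ := exists_seq exists_good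
  have hf' : ∀ k, Good (gl f k) (f k) := hf
  simp only [Good, gl_length] at hf'
  have rec1 : ∀ k (n c : ℝ), A (pl (gl f (k + 1))) n c = A (pl (gl f k)) n c +
      (A (pl (gl f k)) n (c + f k) + A (pl (gl f k)) n (c - f k)) / 2 := by
    intro k n c
    rw [gl_succ, A_append]
  have nrm : ∀ a b : ℂ, ∀ e : ℝ, ‖a‖ ≤ e → ‖b‖ ≤ e → ‖(a + b) / 2‖ ≤ e := by
    intro a b e ha hb
    rw [norm_div]
    have := norm_add_le a b
    simp only [Complex.norm_ofNat]
    linarith
  have F2 : ∀ k (n : ℕ), n ≤ Ms (gl f k) →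
      ‖A (pl (gl f (k + 1))) n 0 - A (pl (gl f k)) n 0‖ ≤ ep k := by
    intro k n hn
    rw [rec1, add_sub_cancel_left]
    exact nrm _ _ _ ((hf' k).2.1 n hn).1 ((hf' k).2.1 n hn).2
  have F3 : ∀ k i, i < k →
      ‖A (pl (gl f (k + 1))) 0 (f i) - A (pl (gl f k)) 0 (f i)‖ ≤ ep k := by
    intro k i hi
    rw [rec1, add_sub_cancel_left]
    have hmem : f i ∈ gl f k := by
      unfold gl
      exact List.mem_map.2 ⟨i, List.mem_range.2 hi, rfl⟩
    exact nrm _ _ _ ((hf' k).2.2.1 _ hmem).1 ((hf' k).2.2.1 _ hmem).2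
  have F0 : A (pl (gl f 0)) 0 0 = 1 := by
    have : ∀ x : ℝ, ph 0 0 x * ((pl (gl f 0) x : ℝ) : ℂ) = 1 := by
      intro x
      simp [ph, gl, pl]
    unfold A
    simp only [this]
    simp
  have R1 : ∀ k, ‖A (pl (gl f k)) 0 0 - 1‖ ≤ 1 / 8 := by
    intro k
    have := tele (fun k => A (pl (gl f k)) 0 0) 0 (fun j _ => by
      have := F2 j 0 (Nat.zero_le _)
      simpa using this) k (Nat.zero_le _)
    simp only [F0] at this
    refine this.trans ?_
    unfold ep
    norm_num
  have R2 : ∀ i k, i < k → 1 / 4 ≤ ‖A (pl (gl f k)) 0 (f i)‖ := by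
    intro i k hik
    have h1 := tele (fun k => A (pl (gl f k)) 0 (f i)) (i + 1) (fun j hj => F3 j i (by omega)) k hik
    have h2 : ‖A (pl (gl f (i + 1))) 0 (f i) - A (pl (gl f i)) 0 0 / 2‖ ≤ 3 / 2 * ep i := by
      rw [rec1]
      have e : A (pl (gl f i)) 0 (f i) + (A (pl (gl f i)) 0 (f i + f i) +
          A (pl (gl f i)) 0 (f i - f i)) / 2 - A (pl (gl f i)) 0 0 / 2 =
          A (pl (gl f i)) 0 (0 + f i) + A (pl (gl f i)) 0 (0 + 2 * f i) / 2 := by
        rw [sub_self, zero_add, zero_add, two_mul]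
        ring
      rw [e]
      have g1 := (hf' i).2.2.2.1
      have g2 := (hf' i).2.2.2.2
      refine (norm_add_le _ _).trans ?_
      rw [norm_div, Complex.norm_ofNat]
      linarith
    have h3 : 7 / 8 ≤ ‖A (pl (gl f i)) 0 0‖ := by
      have := norm_sub_norm_le (1 : ℂ) (1 - A (pl (gl f i)) 0 0)
      rw [norm_one, sub_sub_cancel, norm_sub_rev] at this
      have := R1 i
      linarith
    have h4 : ‖A (pl (gl f i)) 0 0 / 2‖ = ‖A (pl (gl f i)) 0 0‖ / 2 := by
      rw [norm_div, Complex.norm_ofNat]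
    have h5 := norm_sub_norm_le (A (pl (gl f i)) 0 0 / 2) (A (pl (gl f (i + 1))) 0 (f i))
    rw [norm_sub_rev] at h5
    have h6 := norm_sub_norm_le (A (pl (gl f (i + 1))) 0 (f i)) (A (pl (gl f k)) 0 (f i))
    rw [norm_sub_rev] at h6
    have h7 : ep i ≤ 1 / 16 := by
      unfold ep
      calc ((1 : ℝ) / 2) ^ (i + 4) ≤ (1 / 2) ^ 4 :=
            pow_le_pow_of_le_one (by norm_num) (by norm_num) (by omega)
        _ = 1 / 16 := by norm_num
    have h8 : ep (i + 1) ≤ 1 / 32 := by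
      unfold ep
      calc ((1 : ℝ) / 2) ^ (i + 1 + 4) ≤ (1 / 2) ^ 5 :=
            pow_le_pow_of_le_one (by norm_num) (by norm_num) (by omega)
        _ = 1 / 32 := by norm_num
    linarith
  refine ⟨f, fun k => (hf' k).1, R1, R2, ?_⟩
  intro ε hε
  obtain ⟨j, hj⟩ := exists_pow_lt_of_lt_one (show 0 < ε / 3 by positivity)
    (show (1 / 2 : ℝ) < 1 by norm_num)
  refine ⟨Ms (gl f j) + 1, fun n hn => ?_⟩
  have hex : ∃ i, n ≤ Ms (gl f i) := ⟨n, (Nat.le_succ n).trans (Ms_ge f n)⟩
  classical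
  set i := Nat.find hex with hi
  have hi1 : n ≤ Ms (gl f i) := Nat.find_spec hex
  have hij : j < i := by
    by_contra hcon
    have := Ms_mono f (not_lt.1 hcon)
    simp only at this
    omega
  obtain ⟨i', hi'⟩ : ∃ i', i = i' + 1 := ⟨i - 1, by omega⟩
  have hlt : Ms (gl f i') < n := by
    by_contra hcon
    have := Nat.find_min' hex (not_lt.1 hcon)
    omega
  have hth : th (gl f i') ≤ n := (th_le_Ms f i').trans hlt.le
  have hs := fun c => th_spec (gl f i') n hth c
  simp only [gl_length] at hs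
  have h1 : ‖A (pl (gl f i)) n 0‖ ≤ 2 * (1 / 2) ^ i' := by
    rw [hi', rec1]
    refine (norm_add_le _ _).trans ?_
    have := nrm _ _ _ (hs (0 + f i')) (hs (0 - f i'))
    have := hs 0
    linarith
  refine ⟨i, fun k hk => ?_⟩
  have h2 := tele (fun k => A (pl (gl f k)) n 0) i (fun m hm => F2 m n
    (hi1.trans (Ms_mono f hm))) k hk
  have h3 := norm_sub_norm_le (A (pl (gl f k)) n 0) (A (pl (gl f i)) n 0)
  have h4 : 2 * ep i ≤ (1 / 2) ^ i' := by
    unfold ep
    rw [hi', show i' + 1 + 4 = i' + 5 by ring, pow_add]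
    have : (0 : ℝ) < (1 / 2) ^ i' := by positivity
    norm_num
    linarith
  have h5 : ((1 : ℝ) / 2) ^ i' ≤ (1 / 2) ^ j :=
    pow_le_pow_of_le_one (by norm_num) (by norm_num) (by omega)
  linarith

end Pool.Agent.X163.CG
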