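import Mathlib

/-!
# A uniform oscillatory integral estimate

`sup_c |∫_0^1 e^{i (n θ(x) + c x)} p(x) dx| → 0` as `n → ∞`, for `θ(x) = 2 arctan x`.
-/

set_option autoImplicit false

namespace Pool.Agent.X163.CG

open MeasureTheory Filter Topology Set

/-- Riemann–Lebesgue with an injective phase with nonzero derivative. -/
theorem rl_phase {s : Set ℝ} (hs : MeasurableSet s) {g g' : ℝ → ℝ}
    (hg : ∀ x ∈ s, HasDerivAt g (g' x) x) (hinj : InjOn g s) (hne : ∀ x ∈ s, g' x ≠ 0)
    (Q : ℝ → ℂ) :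
    Tendsto (fun w : ℝ => ∫ x in s, Complex.exp ((w * g x : ℝ) * Complex.I) * Q x) atTop
      (𝓝 0) := by
  classical
  set inv : ℝ → ℝ := Function.invFunOn g s with hinv
  set G : ℝ → ℂ := (g '' s).indicator fun u => ((|g' (inv u)|⁻¹ : ℝ) : ℂ) * Q (inv u) with hG
  have hms : MeasurableSet (g '' s) :=
    measurable_image_of_fderivWithin hs
      (fun x hx => ((hg x hx).hasFDerivAt.hasFDerivWithinAt)) hinj
  have key : ∀ w : ℝ, ∫ x in s, Complex.exp ((w * g x : ℝ) * Complex.I) * Q x =
      ∫ v : ℝ, Real.fourierChar (-(v * (-(w / (2 * Real.pi))))) • G v := by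
    intro w
    have h1 := integral_image_eq_integral_abs_deriv_smul hs
      (fun x hx => (hg x hx).hasDerivWithinAt) hinj
      (fun u => Complex.exp ((w * u : ℝ) * Complex.I) * (((|g' (inv u)|⁻¹ : ℝ) : ℂ) * Q (inv u)))
    have h2 : ∫ v : ℝ, Real.fourierChar (-(v * (-(w / (2 * Real.pi))))) • G v =
        ∫ u in g '' s, Complex.exp ((w * u : ℝ) * Complex.I) *
          (((|g' (inv u)|⁻¹ : ℝ) : ℂ) * Q (inv u)) := by
      rw [← integral_indicator hms]
      congr 1
      funext v
      by_cases hv : v ∈ g '' s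
      · rw [hG, indicator_of_mem hv, indicator_of_mem hv]
        rw [Circle.smul_def, Real.fourierChar_apply, smul_eq_mul]
        congr 2
        have : (2 * Real.pi : ℝ) ≠ 0 := by positivity
        push_cast
        field_simp
      · rw [hG, indicator_of_notMem hv, indicator_of_notMem hv, smul_zero]
    rw [h2, h1]
    refine setIntegral_congr_fun hs fun x hx => ?_
    have hix : inv (g x) = x := Function.invFunOn_apply_eq (f := g) hx |> fun h => by
      exact hinj.leftInvOn_invFunOn hx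
    simp only [hix]
    have hne' : ((|g' x| : ℝ) : ℂ) ≠ 0 := by
      exact_mod_cast (abs_pos.2 (hne x hx)).ne'
    rw [Complex.real_smul]
    push_cast
    field_simp
  simp only [key]
  refine (Real.tendsto_integral_exp_smul_cocompact G).comp ?_
  have h3 : Tendsto (fun w : ℝ => -(w / (2 * Real.pi))) atTop atBot :=
    tendsto_neg_atTop_atBot.comp (tendsto_id.atTop_div_const (by positivity))
  exact h3.mono_right atBot_le_cocompact

/-- The difference of phases. -/
noncomputable def gh (h y : ℝ) : ℝ := 2 * Real.arctan y - 2 * Real.arctan (y - h)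

/-- Its derivative. -/
noncomputable def gh' (h y : ℝ) : ℝ := 2 * (1 / (1 + y ^ 2)) - 2 * (1 / (1 + (y - h) ^ 2))

theorem gh_deriv (h y : ℝ) : HasDerivAt (gh h) (gh' h y) y := by
  have h1 := (Real.hasDerivAt_arctan y).const_mul 2
  have h2 := ((Real.hasDerivAt_arctan (y - h)).comp y ((hasDerivAt_id y).sub_const h)).const_mul 2
  have h3 := h1.sub h2
  rw [mul_one] at h3
  exact h3

/-- the domain -/
def sh (h : ℝ) : Set ℝ := Ioo 0 1 ∩ Ioo h (1 + h)

theorem sh_meas (h : ℝ) : MeasurableSet (sh h) := measurableSet_Ioo.inter measurableSet_Ioo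

theorem gh'_neg {h y : ℝ} (hh : 0 < h) (hy : y ∈ sh h) : gh' h y < 0 := by
  obtain ⟨⟨h1, h2⟩, h3, h4⟩ := hy
  unfold gh'
  have : 1 / (1 + y ^ 2) < 1 / (1 + (y - h) ^ 2) := by
    apply one_div_lt_one_div_of_lt (by positivity)
    nlinarith
  linarith

theorem gh'_pos {h y : ℝ} (hh : h < 0) (hy : y ∈ sh h) : 0 < gh' h y := by
  obtain ⟨⟨h1, h2⟩, h3, h4⟩ := hy
  unfold gh'
  have : 1 / (1 + (y - h) ^ 2) < 1 / (1 + y ^ 2) := by
    apply one_div_lt_one_div_of_lt (by positivity)
    nlinarith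
  linarith

theorem sh_convex (h : ℝ) : Convex ℝ (sh h) := (convex_Ioo _ _).inter (convex_Ioo _ _)

theorem gh_inj {h : ℝ} (hh : h ≠ 0) : InjOn (gh h) (sh h) := by
  have hc : ContinuousOn (gh h) (sh h) := fun y _ => (gh_deriv h y).continuousAt.continuousWithinAt
  rcases lt_or_gt_of_ne hh with h0 | h0
  · refine (strictMonoOn_of_deriv_pos (sh_convex h) hc fun y hy => ?_).injOn
    rw [(gh_deriv h y).deriv]
    exact gh'_pos h0 (interior_subset hy)
  · refine (strictAntiOn_of_deriv_neg (sh_convex h) hc fun y hy => ?_).injOn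
    rw [(gh_deriv h y).deriv]
    exact gh'_neg h0 (interior_subset hy)

theorem gh'_ne {h : ℝ} (hh : h ≠ 0) : ∀ y ∈ sh h, gh' h y ≠ 0 := by
  intro y hy
  rcases lt_or_gt_of_ne hh with h0 | h0
  · exact (gh'_pos h0 hy).ne'
  · exact (gh'_neg h0 hy).ne

/-- The correlation integral. -/
noncomputable def J (p : ℝ → ℝ) (w h : ℝ) : ℂ :=
  ∫ y in sh h, Complex.exp ((w * gh h y : ℝ) * Complex.I) * ((p y * p (y - h) : ℝ) : ℂ)

theorem J_tendsto (p : ℝ → ℝ) {h : ℝ} (hh : h ≠ 0) :
    Tendsto (fun w => J p w h) atTop (𝓝 0) :=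
  rl_phase (sh_meas h) (fun x _ => gh_deriv h x) (gh_inj hh) (gh'_ne hh) _

/-- The phase factor. -/
noncomputable def ph (n c x : ℝ) : ℂ := Complex.exp ((n * (2 * Real.arctan x) + c * x : ℝ) * Complex.I)

theorem norm_ph (n c x : ℝ) : ‖ph n c x‖ = 1 := Complex.norm_exp_ofReal_mul_I _

theorem continuous_ph (n c : ℝ) : Continuous (ph n c) := by
  unfold ph
  have : Continuous Real.arctan := Real.continuous_arctan
  fun_prop

/-- The oscillatory integral. -/
noncomputable def A (p : ℝ → ℝ) (n c : ℝ) : ℂ := ∫ x in Ioo (0 : ℝ) 1, ph n c x * (p x : ℂ)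

theorem A_sq (p : ℝ → ℝ) (hp : Continuous p) (n c : ℝ) :
    ‖A p n c‖ ^ 2 ≤ ∫ h, ‖J p n h‖ ∧ Integrable fun h => ‖J p n h‖ := by
  set F : ℝ → ℂ := (Ioo (0 : ℝ) 1).indicator fun x => ph n c x * (p x : ℂ) with hF
  have hcont : Continuous fun x => ph n c x * (p x : ℂ) := (continuous_ph n c).mul
    (Complex.continuous_ofReal.comp hp)
  have hFi : Integrable F := by
    rw [hF, integrable_indicator_iff measurableSet_Ioo]
    exact (hcont.integrableOn_Icc (a := 0) (b := 1)).mono_set Ioo_subset_Icc_self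
  set F1 : ℝ → ℂ := fun x => (starRingEnd ℂ) (F x) with hF1
  have hF1i : Integrable F1 := by
    have := (Complex.conjLIE : ℂ ≃ₗᵢ[ℝ] ℂ).toContinuousLinearEquiv.toContinuousLinearMap.integrable_comp hFi
    exact this
  set F2 : ℝ → ℂ := fun x => F (-x) with hF2
  have hF2i : Integrable F2 := hFi.comp_neg
  have hA : A p n c = ∫ x, F x := by
    rw [hF, integral_indicator measurableSet_Ioo]; rfl
  have hconv := hF1i.convolution_integrand (ContinuousLinearMap.mul ℂ ℂ) hF2i
    (μ := (volume : Measure ℝ)) (ν := (volume : Measure ℝ))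
  simp only [ContinuousLinearMap.mul_apply'] at hconv
  -- the double integral
  have e1 : ((‖A p n c‖ ^ 2 : ℝ) : ℂ) = ∫ y, ∫ h, F1 y * F2 (h - y) := by
    have : ∀ y, ∫ h, F1 y * F2 (h - y) = F1 y * ∫ x, F x := by
      intro y
      rw [integral_const_mul]
      congr 1
      rw [integral_sub_right_eq_self (fun x => F2 x) y, hF2, integral_neg_eq_self]
    simp only [this]
    rw [integral_mul_const]
    have h2 : ∫ y, F1 y = (starRingEnd ℂ) (∫ y, F y) := integral_conj
    rw [h2, ← hA, Complex.conj_mul']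
    push_cast
    rfl
  have e2 : ∫ y, ∫ h, F1 y * F2 (h - y) = ∫ h, ∫ y, F1 y * F2 (h - y) := by
    rw [integral_integral_swap]
    exact hconv.swap
  have e3 : ∀ h, ‖∫ y, F1 y * F2 (h - y)‖ = ‖J p n h‖ := by
    intro h
    have : ∫ y, F1 y * F2 (h - y) = (starRingEnd ℂ) (Complex.exp ((c * h : ℝ) * Complex.I) * J p n h) := by
      rw [J, ← integral_const_mul, ← integral_conj, ← integral_indicator (sh_meas h)]
      congr 1
      funext y
      by_cases hy : y ∈ sh h
      · obtain ⟨hy1, hy2⟩ := hy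
        have hy3 : -(h - y) ∈ Ioo (0 : ℝ) 1 := ⟨by linarith [hy2.1], by linarith [hy2.2]⟩
        rw [indicator_of_mem (show y ∈ sh h from ⟨hy1, hy2⟩)]
        simp only [hF1, hF2, hF]
        rw [indicator_of_mem hy1, indicator_of_mem hy3]
        simp only [map_mul, Complex.conj_ofReal, ph, ← Complex.exp_conj, Complex.conj_I]
        have e5 : Complex.exp ((((n * (2 * Real.arctan y) + c * y : ℝ)) : ℂ) * -Complex.I) *
            Complex.exp ((((n * (2 * Real.arctan (-(h - y))) + c * (-(h - y)) : ℝ)) : ℂ) * Complex.I)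
            = Complex.exp ((((c * h : ℝ)) : ℂ) * -Complex.I) *
            Complex.exp ((((n * gh h y : ℝ)) : ℂ) * -Complex.I) := by
          rw [← Complex.exp_add, ← Complex.exp_add]
          congr 1
          rw [show -(h - y) = y - h by ring]
          unfold gh
          push_cast
          ring
        rw [show -(h - y) = y - h by ring] at *
        push_cast at e5 ⊢
        linear_combination ((p y : ℂ) * (p (y - h) : ℂ)) * e5
      · rw [indicator_of_notMem hy]
        simp only [hF1, hF2, hF]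
        by_cases hy1 : y ∈ Ioo (0 : ℝ) 1
        · have hy3 : -(h - y) ∉ Ioo (0 : ℝ) 1 := by
            intro h3
            exact hy ⟨hy1, by linarith [h3.1], by linarith [h3.2]⟩
          rw [indicator_of_notMem hy3, mul_zero]
        · rw [indicator_of_notMem hy1, map_zero, zero_mul]
    rw [this, RCLike.norm_conj, norm_mul, Complex.norm_exp_ofReal_mul_I, one_mul]
  have e4 : ‖A p n c‖ ^ 2 = ‖∫ h, ∫ y, F1 y * F2 (h - y)‖ := by
    rw [← e2, ← e1, Complex.norm_real, Real.norm_of_nonneg (by positivity)]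
  constructor
  · rw [e4]
    refine (norm_integral_le_integral_norm _).trans (le_of_eq ?_)
    simp only [e3]
  · have := (hconv.integral_prod_left).norm
    simp only [e3] at this
    exact this

theorem J_bound (p : ℝ → ℝ) {B : ℝ} (hB : ∀ x ∈ Icc (0 : ℝ) 1, |p x| ≤ B) (w h : ℝ) :
    ‖J p w h‖ ≤ (Icc (-1 : ℝ) 1).indicator (fun _ => B ^ 2) h := by
  have hB0 : 0 ≤ B := (abs_nonneg _).trans (hB 0 (by simp))
  by_cases hh : h ∈ Icc (-1 : ℝ) 1
  · rw [indicator_of_mem hh]
    have hv : (volume : Measure ℝ) (sh h) ≤ 1 := by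
      refine (measure_mono inter_subset_left).trans ?_
      rw [Real.volume_Ioo]; simp
    have hfin : (volume : Measure ℝ) (sh h) < ⊤ := lt_of_le_of_lt hv ENNReal.one_lt_top
    have := norm_setIntegral_le_of_norm_le_const (μ := (volume : Measure ℝ)) hfin
      (f := fun y => Complex.exp ((w * gh h y : ℝ) * Complex.I) * ((p y * p (y - h) : ℝ) : ℂ))
      (C := B ^ 2) (by
        intro y hy
        rw [norm_mul, Complex.norm_exp_ofReal_mul_I, one_mul, Complex.norm_real, Real.norm_eq_abs,
          abs_mul, sq]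
        obtain ⟨h1, h2⟩ := hy
        exact mul_le_mul (hB _ ⟨h1.1.le, h1.2.le⟩)
          (hB _ ⟨by linarith [h2.1], by linarith [h2.2]⟩) (abs_nonneg _) hB0)
    refine this.trans ?_
    have h3 : (volume : Measure ℝ).real (sh h) ≤ 1 := by
      have := ENNReal.toReal_mono ENNReal.one_ne_top hv
      simpa [Measure.real] using this
    nlinarith [sq_nonneg B]
  · rw [indicator_of_notMem hh]
    have : sh h = ∅ := by
      rw [eq_empty_iff_forall_notMem]
      rintro y ⟨h1, h2⟩
      apply hh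
      constructor
      · linarith [h1.1, h2.2]
      · linarith [h1.2, h2.1]
    simp [J, this]

/-- **Uniform decay.** -/
theorem vdc (p : ℝ → ℝ) (hp : Continuous p) {ε : ℝ} (hε : 0 < ε) :
    ∃ m : ℕ, ∀ n : ℕ, m ≤ n → ∀ c : ℝ, ‖A p n c‖ ≤ ε := by
  obtain ⟨B, hB⟩ : ∃ B, ∀ x ∈ Icc (0 : ℝ) 1, |p x| ≤ B := by
    obtain ⟨B, hB⟩ := isCompact_Icc.exists_bound_of_continuousOn (s := Icc (0 : ℝ) 1) hp.continuousOn
    exact ⟨B, fun x hx => hB x hx⟩
  have hlim : Tendsto (fun w : ℝ => ∫ h, ‖J p w h‖) atTop (𝓝 (∫ _h : ℝ, (0 : ℝ))) := by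
    refine tendsto_integral_filter_of_dominated_convergence
      ((Icc (-1 : ℝ) 1).indicator (fun _ => B ^ 2)) ?_ ?_ ?_ ?_
    · exact Eventually.of_forall fun w => (A_sq p hp w 0).2.aestronglyMeasurable
    · refine Eventually.of_forall fun w => Eventually.of_forall fun h => ?_
      rw [norm_norm]
      exact J_bound p hB w h
    · rw [integrable_indicator_iff measurableSet_Icc]
      exact integrableOn_const (by simp) 
    · have : ∀ᵐ h : ℝ, h ≠ 0 := by
        rw [ae_iff]; simp
      filter_upwards [this] with h hh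
      have := (J_tendsto p hh).norm
      simpa using this
  rw [integral_zero] at hlim
  have hlim2 := hlim.comp tendsto_natCast_atTop_atTop
  have := (hlim2.eventually (gt_mem_nhds (show (0 : ℝ) < ε ^ 2 by positivity)))
  obtain ⟨m, hm⟩ := eventually_atTop.1 this
  refine ⟨m, fun n hn c => ?_⟩
  have h1 := (A_sq p hp n c).1
  have h2 := hm n hn
  simp only [Function.comp_apply] at h2
  exact abs_le_of_sq_le_sq' (h1.trans h2.le) hε.le |>.2

end Pool.Agent.X163.CG
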